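import Pool.Agent.H645R2.HT.Univ

/-! Solutions compute a function which is diagonally noncomputable relative to `0''`. -/

namespace Pool.Agent.H19R3.DNC

open Encodable Nat.Partrec Pool.Agent.Helper446 Pool.Agent.Helper446.RE
  Pool.Agent.Helper446.Oracle Pool.Agent.H645R2.HT

variable {W : ℕ → ℕ → Bool} {X : Set ℕ}

/-- A long chain inside the `e`-th set contradicts the colouring `g3` if this set is contained in
the solution. -/
theorem no_chain (hp : Ps X) (hf : Far X) (hM : ModOK W X) (he3 : Eq3 (C (g3 W)) X) (e : ℕ)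
    (hX : ∀ n, (∃ a, Tr W e n a) → n ∈ X) (f : ℕ → ℕ)
    (hf0 : ∀ i ≤ e + 1, ∃ a, Tr W e (f i) a) (hf2 : ∀ i ≤ e, Sep (f i) (f (i + 1))) : False := by
  have hf1 : ∀ i ≤ e + 1, f i ∈ X := fun i hi => hX _ (hf0 i hi)
  have hlt : ∀ j, ∀ i, i < j → j ≤ e → la (f i) < la (f j) := by
    intro j
    induction j with
    | zero => intro i hi; omega
    | succ j ih =>
      intro i hi hj
      have h1 := sep_lt (hp _ (hf1 j (by omega))) (hf2 j (by omega))
      rcases Nat.lt_succ_iff_lt_or_eq.1 hi with h | h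
      · have := ih i h (by omega)
        omega
      · rw [h]; exact h1
  have hinj : ∀ i ≤ e, ∀ j ≤ e, la (f i) = la (f j) → i = j := by
    intro i hi j hj hij
    rcases Nat.lt_trichotomy i j with h | h | h
    · have := hlt j i h hj; omega
    · exact h
    · have := hlt i j h hi; omega
  choose! w hw using hf0
  let cc : ℕ → ℕ := fun i => Nat.pair (Nat.pair (f i) (w i)) (Nat.pair (f (i + 1)) (w (i + 1)))
  -- a bound for the codes
  obtain ⟨N, hN⟩ : ∃ N, ∀ i ≤ e, cc i ≤ N ∧ mu (f (i + 1)) ≤ N := by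
    refine ⟨(Finset.range (e + 1)).sup (fun i => max (cc i) (mu (f (i + 1)))), fun i hi => ?_⟩
    have h5 : i ∈ Finset.range (e + 1) := Finset.mem_range.2 (Nat.lt_succ_of_le hi)
    have h6 := Finset.le_sup (f := fun i => max (cc i) (mu (f (i + 1)))) h5
    exact ⟨le_trans (le_max_left _ _) h6, le_trans (le_max_right _ _) h6⟩
  obtain ⟨v0, hv0⟩ := exists_dead (W := W) e N
  obtain ⟨l, hl, hll⟩ := hf (max (max v0 N) e)
  -- the stage
  have hgood : ∀ z ≤ la l, ∀ s, W s z = true → W (mu l) z = true := hM l hl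
  -- some candidate of the chain is available
  obtain ⟨i, hi, hit⟩ : ∃ i ≤ e, la (f i) ∉ TT W (la l) (mu l) e := by
    by_contra hc
    push Not at hc
    have h1 : (Finset.range (e + 1)).image (fun i => la (f i)) ⊆
        (TT W (la l) (mu l) e).toFinset := by
      intro y hy
      obtain ⟨i, hi, rfl⟩ := Finset.mem_image.1 hy
      rw [List.mem_toFinset]
      exact hc i (by have := Finset.mem_range.1 hi; omega)
    have h2 := Finset.card_le_card h1
    rw [Finset.card_image_of_injOn, Finset.card_range] at h2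
    · have h3 := List.toFinset_card_le (TT W (la l) (mu l) e)
      have h4 := TT_length (W := W) (v := la l) (s := mu l) (e := e)
      omega
    · intro a ha b hb hab
      have ha' := Finset.mem_range.1 (Finset.mem_coe.1 ha)
      have hb' := Finset.mem_range.1 (Finset.mem_coe.1 hb)
      exact hinj a (by omega) b (by omega) hab
  have hal : ∀ j ≤ e + 1, al W e (la l) (mu l) (f j) (w j) = true := by
    intro j hj
    rw [al_iff]
    intro b hb
    obtain ⟨s, hs⟩ := hw j hj b
    exact hgood _ hb s hs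
  have htst : tst W e (la l) (mu l) (TT W (la l) (mu l) e) (cc i) = true := by
    rw [tst_iff]
    simp only [ph, pa, pk, pb, cc, Nat.unpair_pair]
    refine ⟨hal _ (by omega), hal _ (by omega), hp _ (hf1 _ (by omega)), hp _ (hf1 _ (by omega)),
      hf2 i hi, ?_, hit⟩
    have := (hN i hi).2
    omega
  obtain ⟨h1, h2, h3⟩ := lst_lt_of (q := tst W e (la l) (mu l) (TT W (la l) (mu l) e))
    (n := la l) (i := cc i) (by have := (hN i hi).1; omega) htst
  change pick W (la l) (mu l) e ≤ cc i at h1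
  change pick W (la l) (mu l) e < la l at h2
  have ht := tst_iff.1 (pick_tst h2)
  have hcN : pick W (la l) (mu l) e ≤ N := le_trans h1 (hN i hi).1
  obtain ⟨d1, d2⟩ := hv0 _ hcN (la l) (mu l) (by omega)
  have hhX : ph (pick W (la l) (mu l) e) ∈ X := hX _ ⟨_, d1 ht.1⟩
  have hkX : pk (pick W (la l) (mu l) e) ∈ X := hX _ ⟨_, d2 ht.2.1⟩
  obtain ⟨v1, v2⟩ := g3_pick (W := W) (s := mu l) (v := la l) (e := e) (by omega) h2
  generalize pick W (la l) (mu l) e = c at *
  have hr := rel (hp _ hhX) (hp _ hkX) (hp l hl) ht.2.2.2.2.1 ht.2.2.2.2.2.1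
    (he3 _ hhX _ hkX l hl ht.2.2.2.2.1 ht.2.2.2.2.2.1)
  rw [v1, v2] at hr
  revert hr
  generalize xor (g3 W (mu l) (la (ph c)) (mu (ph c)) (la (pk c)))
        (gs (g3 W (mu l) (la (ph c))) (L (pk c))) = a
  revert a
  decide

/-- Index of the sections of the `e`-th enumerable set. -/
def idx (e q : ℕ) : ℕ := encode (Code.curry (Denumerable.ofNat Code e) q)

theorem c_idx {α : Type*} [Primcodable α] (e : ℕ) {f : α → ℕ} (hf : Computable f) :
    Computable fun a => idx e (f a) := by
  unfold idx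
  exact Computable.encode.comp ((Code.primrec₂_curry.to_comp).comp
    (Computable.const (Denumerable.ofNat Code e)) hf)

theorem idx_iff (e q x : ℕ) : (∃ s, W0 s (Nat.pair (idx e q) x) = true) ↔
    ∃ s, W0 s (Nat.pair e (Nat.pair q x)) = true := by
  have key : ∀ (c : Code) (y : ℕ), (∃ s, (Code.evaln s c y).isSome = true) ↔
      ∃ z, z ∈ Code.eval c y := by
    intro c y
    constructor
    · rintro ⟨s, hs⟩
      obtain ⟨z, hz⟩ := Option.isSome_iff_exists.1 hs
      exact ⟨z, Code.evaln_complete.2 ⟨s, hz⟩⟩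
    · rintro ⟨z, hz⟩
      obtain ⟨k, hk⟩ := Code.evaln_complete.1 hz
      refine ⟨k, ?_⟩
      rw [Option.mem_def] at hk
      rw [hk]; rfl
  unfold W0 wst idx
  simp only [Nat.unpair_pair, encode_nat, Denumerable.ofNat_encode]
  rw [key, key, Code.eval_curry]

/-- The `Σ⁰₃` relation presented by `R`. -/
def Sig3 (R : ℕ → ℕ → ℕ → ℕ → ℕ → Bool) (q m : ℕ) : Prop := ∃ a, ∀ b, ∃ t, R q m a b t = true

/-- The list coded by `m`. -/
def dl (m : ℕ) : List ℕ := (decode (α := List ℕ) m).getD []

theorem c_dl : Computable dl := by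
  unfold dl
  exact Primrec.option_getD.to_comp.comp (by fun_prop) (by fun_prop)

/-- The index of the union of the sets coded by the elements of the section. -/
theorem exists_index {R : ℕ → ℕ → ℕ → ℕ → ℕ → Bool}
    (hR : Computable fun x : ℕ × ℕ × ℕ × ℕ × ℕ => R x.1 x.2.1 x.2.2.1 x.2.2.2.1 x.2.2.2.2) :
    ∃ e, ∀ q n, (∃ a, Tr W0 (idx e q) n a) ↔ ∃ m, Sig3 R q m ∧ n ∈ dl m := by
  have h1 : REPred fun w : ℕ => ∃ t,
      R w.unpair.1 w.unpair.2.unpair.2.unpair.1.unpair.1
        w.unpair.2.unpair.2.unpair.1.unpair.2 w.unpair.2.unpair.2.unpair.2 t = true ∧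
      w.unpair.2.unpair.1 ∈ dl w.unpair.2.unpair.2.unpair.1.unpair.1 := by
    refine RE.exN (p := fun (w : ℕ) t =>
      R w.unpair.1 w.unpair.2.unpair.2.unpair.1.unpair.1
        w.unpair.2.unpair.2.unpair.1.unpair.2 w.unpair.2.unpair.2.unpair.2 t = true ∧
      w.unpair.2.unpair.1 ∈ dl w.unpair.2.unpair.2.unpair.1.unpair.1) ?_
    refine RE.and (RE.eq ?_ (by fun_prop)) ?_
    · exact hR.comp (g := fun x : ℕ × ℕ => (x.1.unpair.1,
        x.1.unpair.2.unpair.2.unpair.1.unpair.1, x.1.unpair.2.unpair.2.unpair.1.unpair.2,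
        x.1.unpair.2.unpair.2.unpair.2, x.2)) (by fun_prop)
    · refine RE.mem_list (f := fun x : ℕ × ℕ => x.1.unpair.2.unpair.1)
        (l := fun x : ℕ × ℕ => dl x.1.unpair.2.unpair.2.unpair.1.unpair.1) (by fun_prop) ?_
      exact c_dl.comp (by fun_prop)
  obtain ⟨e, he⟩ := univ_W0 h1
  refine ⟨e, fun q n => ?_⟩
  unfold Tr Sig3
  constructor
  · rintro ⟨a, ha⟩
    refine ⟨a.unpair.1, ⟨a.unpair.2, fun b => ?_⟩, ?_⟩
    · obtain ⟨t, ht, -⟩ := (he _).2 ((idx_iff e q _).1 (ha b))
      simp only [Nat.unpair_pair] at ht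
      exact ⟨t, ht⟩
    · obtain ⟨t, -, ht⟩ := (he _).2 ((idx_iff e q _).1 (ha 0))
      simp only [Nat.unpair_pair] at ht
      exact ht
  · rintro ⟨m, ⟨a, ha⟩, hn⟩
    refine ⟨Nat.pair m a, fun b => ?_⟩
    rw [idx_iff, ← he]
    obtain ⟨t, ht⟩ := ha b
    refine ⟨t, ?_⟩
    simp only [Nat.unpair_pair]
    exact ⟨ht, hn⟩

/-- The element number `i` of the list coded by `m`. -/
def el (m i : ℕ) : ℕ := ((dl m)[i]?).getD 0

theorem c_el {α : Type*} [Primcodable α] {f g : α → ℕ} (hf : Computable f)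
    (hg : Computable g) : Computable fun a => el (f a) (g a) := by
  unfold el
  have h1 : Computable fun a => dl (f a) := c_dl.comp hf
  fun_prop

/-- `m` codes a list of length `N + 2` of elements of `X`, each separated from the next one. -/
def Good (X : Set ℕ) (N m : ℕ) : Prop :=
  (dl m).length = N + 2 ∧ (∀ i < N + 2, el m i ∈ X) ∧ ∀ i < N + 1, Sep (el m i) (el m (i + 1))

theorem exists_good (hf : Far X) (N : ℕ) : ∃ m, Good X N m := by
  obtain ⟨f, hf1, hf2⟩ := exists_chain hf
  refine ⟨encode ((List.range (N + 2)).map f), ?_⟩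
  have h1 : dl (encode ((List.range (N + 2)).map f)) = (List.range (N + 2)).map f := by
    unfold dl; rw [encodek]; rfl
  have h2 : ∀ i < N + 2, el (encode ((List.range (N + 2)).map f)) i = f i := by
    intro i hi
    unfold el
    rw [h1, List.getElem?_map, List.getElem?_range hi]
    rfl
  refine ⟨by rw [h1]; simp, fun i hi => by rw [h2 i hi]; exact hf1 i, fun i hi => ?_⟩
  rw [h2 i (by omega), h2 (i + 1) (by omega)]
  exact hf2 i

section

variable {α : Type*} [Primcodable α]

theorem re_good {N m : α → ℕ} (hN : Computable N) (hm : Computable m) :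
    REIn X fun a => Good X (N a) (m a) := by
  unfold Good
  refine REIn.and (REIn.of_re (RE.eq ?_ (by fun_prop))) (REIn.and ?_ ?_)
  · have h1 : Computable fun a => dl (m a) := c_dl.comp hm
    fun_prop
  · refine REIn.all_lt (S := fun a i => el (m a) i ∈ X) ?_ (by fun_prop)
    exact REIn.mem (f := fun x : α × ℕ => el (m x.1) x.2)
      (c_el (hm.comp Computable.fst) Computable.snd)
  · refine REIn.all_lt (S := fun a i => Sep (el (m a) i) (el (m a) (i + 1))) ?_ (by fun_prop)
    refine REIn.of_re ?_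
    unfold Pool.Agent.H645R2.HT.Sep
    exact RE.lt (c_mu (c_el (hm.comp Computable.fst) Computable.snd))
      (c_la (c_el (hm.comp Computable.fst) (by fun_prop)))

theorem re_not_good {N m : α → ℕ} (hN : Computable N) (hm : Computable m) :
    REIn X fun a => ¬ Good X (N a) (m a) := by
  have h1 : Computable fun a => dl (m a) := c_dl.comp hm
  have key : REIn X fun a => (dl (m a)).length < N a + 2 ∨ (N a + 2 < (dl (m a)).length ∨
      ((∃ i, i < N a + 2 ∧ el (m a) i ∉ X) ∨
        ∃ i, i < N a + 1 ∧ la (el (m a) (i + 1)) < mu (el (m a) i) + 1)) := by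
    refine REIn.or (REIn.of_re (RE.lt (by fun_prop) (by fun_prop))) (REIn.or
      (REIn.of_re (RE.lt (by fun_prop) (by fun_prop))) (REIn.or ?_ ?_))
    · refine REIn.ex (S := fun a i => i < N a + 2 ∧ el (m a) i ∉ X) ?_
      refine REIn.and (REIn.of_re (RE.lt (by fun_prop) ?_)) ?_
      · exact (show Computable fun a => N a + 2 by fun_prop).comp Computable.fst
      · exact REIn.not_mem (f := fun x : α × ℕ => el (m x.1) x.2)
          (c_el (hm.comp Computable.fst) Computable.snd)
    · refine REIn.ex (S := fun a i => i < N a + 1 ∧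
        la (el (m a) (i + 1)) < mu (el (m a) i) + 1) ?_
      refine REIn.and (REIn.of_re (RE.lt (by fun_prop) ?_)) (REIn.of_re ?_)
      · exact (show Computable fun a => N a + 1 by fun_prop).comp Computable.fst
      · have e1 : Computable fun x : α × ℕ => mu (el (m x.1) x.2) :=
          c_mu (c_el (hm.comp Computable.fst) Computable.snd)
        exact RE.lt (c_la (c_el (hm.comp Computable.fst) (by fun_prop))) (by fun_prop)
  refine key.of_eq fun a => ?_
  unfold Good Pool.Agent.H645R2.HT.Sep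
  constructor
  · rintro (h | h | ⟨i, hi, h⟩ | ⟨i, hi, h⟩) ⟨h1, h2, h3⟩
    · omega
    · omega
    · exact h (h2 i hi)
    · have := h3 i hi
      omega
  · intro h
    by_contra hc
    push Not at hc
    obtain ⟨c1, c2, c3, c4⟩ := hc
    refine h ⟨by omega, fun i hi => c3 i hi, fun i hi => ?_⟩
    have := c4 i hi
    omega

end

/-- Solutions compute, for every `Σ⁰₃` relation, a function avoiding all single-valued
sections. -/
theorem dnc (hp : Ps X) (hf : Far X) (hM : ModOK W0 X) (he3 : Eq3 (C (g3 W0)) X)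
    {R : ℕ → ℕ → ℕ → ℕ → ℕ → Bool}
    (hR : Computable fun x : ℕ × ℕ × ℕ × ℕ × ℕ => R x.1 x.2.1 x.2.2.1 x.2.2.2.1 x.2.2.2.2) :
    ∃ f : ℕ → ℕ, REIn X (fun x : ℕ × ℕ => f x.1 = x.2) ∧
      ∀ q, ¬ ∀ m, Sig3 R q m ↔ m = f q := by
  classical
  obtain ⟨e, he⟩ := exists_index hR
  have hex : ∀ q, ∃ m, Good X (idx e q) m := fun q => exists_good hf _
  refine ⟨fun q => Nat.find (hex q), ?_, ?_⟩
  · have h1 : REIn X fun x : ℕ × ℕ => Good X (idx e x.1) x.2 ∧
        ∀ i < x.2, ¬ Good X (idx e x.1) i := by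
      refine REIn.and (re_good (c_idx e (by fun_prop)) (by fun_prop)) ?_
      refine REIn.all_lt (S := fun (x : ℕ × ℕ) i => ¬ Good X (idx e x.1) i) ?_ (by fun_prop)
      exact re_not_good (N := fun x : (ℕ × ℕ) × ℕ => idx e x.1.1)
        (m := fun x : (ℕ × ℕ) × ℕ => x.2) (c_idx e (by fun_prop)) (by fun_prop)
    refine h1.of_eq fun x => ?_
    constructor
    · rintro ⟨h2, h3⟩
      exact (Nat.find_eq_iff _).2 ⟨h2, h3⟩
    · intro h2
      exact (Nat.find_eq_iff _).1 h2
  · intro q hq
    obtain ⟨h1, h2, h3⟩ := Nat.find_spec (hex q)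
    dsimp only at hq
    generalize Nat.find (hex q) = m at *
    have hmem : ∀ n, (∃ a, Tr W0 (idx e q) n a) ↔ n ∈ dl m := by
      intro n
      rw [he q n]
      constructor
      · rintro ⟨m', hm', hn⟩
        rw [(hq m').1 hm'] at hn
        exact hn
      · intro hn
        exact ⟨m, (hq m).2 rfl, hn⟩
    have hel : ∀ i < idx e q + 2, el m i ∈ dl m := by
      intro i hi
      unfold el
      rw [List.getElem?_eq_getElem (by omega)]
      exact List.getElem_mem _
    refine no_chain hp hf hM he3 (idx e q) ?_ (el m) ?_ ?_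
    · intro n hn
      obtain ⟨i, hi, rfl⟩ := List.getElem_of_mem ((hmem n).1 hn)
      have h4 := h2 i (by omega)
      unfold el at h4
      rwa [List.getElem?_eq_getElem hi] at h4
    · intro i hi
      exact (hmem _).2 (hel i (by omega))
    · intro i hi
      exact h3 i (by omega)

end Pool.Agent.H19R3.DNC
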